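import Pool.Agent.Helper59.Split.G4

/-!
MP_77d03c_al, Q1, with an explicit bound and for every splitting automorphism with `φ ^ 4 = 1`
(the order of `φ` is not required to be exactly `4`).
-/

set_option autoImplicit false

universe u

namespace Pool.Agent.Results.MP_77d03c_al.SplittingExplicit

/-- A nilpotent `2`-group generated by at most `d` elements which has an automorphism `φ` with
`φ ^ 4 = 1` and `x · φ x · φ² x · φ³ x = 1` for all `x` has derived length at most
`⌈log₂ (6 ((d + 2) (1 + d + d²) + 1) + 5)⌉ + 3`. -/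
theorem result (G : Type u) [Group G] (hp : IsPGroup 2 G) (hG : Group.IsNilpotent G) (d : ℕ)
    (hs : ∃ s : Finset G, s.card ≤ d ∧ Subgroup.closure (s : Set G) = ⊤)
    (φ : MulAut G) (h4 : φ ^ 4 = 1) (hφ : ∀ x : G, x * φ x * φ (φ x) * φ (φ (φ x)) = 1) :
    derivedSeries G (Nat.clog 2 (6 * ((d + 2) * (1 + d + d * d) + 1) + 5) + 3) = ⊥ :=
  Pool.Agent.Helper59.Split.main_split hp hG d hs φ h4 hφ

end Pool.Agent.Results.MP_77d03c_al.SplittingExplicit
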